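import Mathlib

/-!
# Elimination: systems of forms without zeros stay so under most specialisations
-/

set_option autoImplicit false

open MvPolynomial

namespace Pool.Agent.V8H73.ZP

/-- A system over a domain which has only the zero solution over an algebraically closed field containing the domain has
only this solution after every specialisation at which a suitable element does not vanish. -/
theorem elim {Λ : Type} [CommRing Λ] [IsDomain Λ] {σ β : Type} [Finite σ] (P : β → MvPolynomial σ Λ)
    {F : Type} [Field F] [IsAlgClosed F] (φ : Λ →+* F) (hφ : Function.Injective φ)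
    (h : ∀ y : σ → F, (∀ b, eval₂ φ y (P b) = 0) → y = 0) :
    ∃ D : Λ, D ≠ 0 ∧ ∀ (F' : Type) [Field F'] (ρ : Λ →+* F'), ρ D ≠ 0 → ∀ y : σ → F',
      (∀ b, eval₂ ρ y (P b) = 0) → y = 0 := by
  classical
  have : Fintype σ := Fintype.ofFinite σ
  let k := FractionRing Λ
  let φk : k →+* F := IsFractionRing.lift hφ
  let _ : Algebra k F := φk.toAlgebra
  have e1 : (algebraMap k F).comp (algebraMap Λ k) = φ := by
    ext a
    show IsFractionRing.lift hφ (algebraMap Λ k a) = φ a
    rw [IsFractionRing.lift_algebraMap]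
  let J₀ : Ideal (MvPolynomial σ Λ) := Ideal.span (Set.range P)
  let ι : MvPolynomial σ Λ →+* MvPolynomial σ k := MvPolynomial.map (algebraMap Λ k)
  let J : Ideal (MvPolynomial σ k) := J₀.map ι
  have hrad : ∀ j, (X j : MvPolynomial σ k) ∈ J.radical := by
    intro j
    rw [← vanishingIdeal_zeroLocus_eq_radical (K := F), mem_vanishingIdeal_iff]
    intro z hz
    rw [mem_zeroLocus_iff] at hz
    have hz0 : z = 0 := by
      apply h
      intro b
      have h1 := hz _ (Ideal.mem_map_of_mem ι (Ideal.subset_span ⟨b, rfl⟩))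
      rw [aeval_def, eval₂_map, e1] at h1
      exact h1
    rw [aeval_X, hz0, Pi.zero_apply]
  have hloc : ∀ j, ∃ (D : Λ) (M : ℕ), D ≠ 0 ∧ C D * X j ^ M ∈ J₀ := by
    intro j
    obtain ⟨M, hM⟩ := hrad j
    let _ : Algebra (MvPolynomial σ Λ) (MvPolynomial σ k) := ι.toAlgebra
    have hL : IsLocalization (Submonoid.map (C : Λ →+* MvPolynomial σ Λ) (nonZeroDivisors Λ)) (MvPolynomial σ k) :=
      MvPolynomial.isLocalization (nonZeroDivisors Λ) k
    have h1 : (X j : MvPolynomial σ k) ^ M ∈ J₀.map (algebraMap (MvPolynomial σ Λ) (MvPolynomial σ k)) := hM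
    rw [IsLocalization.mem_map_algebraMap_iff (Submonoid.map (C : Λ →+* MvPolynomial σ Λ) (nonZeroDivisors Λ))] at h1
    obtain ⟨⟨⟨a, ha⟩, ⟨s, hs⟩⟩, h2⟩ := h1
    obtain ⟨D, hD, rfl⟩ := hs
    refine ⟨D, M, nonZeroDivisors.ne_zero hD, ?_⟩
    have hinj : Function.Injective ι := MvPolynomial.map_injective _ (IsFractionRing.injective Λ k)
    have h3 : ι (X j ^ M * C D) = ι a := by
      have h4 : (X j : MvPolynomial σ k) ^ M * ι (C D) = ι a := h2
      rw [map_mul, map_pow]
      have h5 : ι (X j) = X j := MvPolynomial.map_X _ _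
      rw [h5]
      exact h4
    have h4 : C D * X j ^ M = a := by
      rw [mul_comm]
      exact hinj h3
    rw [h4]
    exact ha
  choose D M hD hDM using hloc
  refine ⟨∏ j, D j, Finset.prod_ne_zero_iff.2 fun j _ => hD j, ?_⟩
  intro F' _ ρ hρ y hy
  rw [map_prod, Finset.prod_ne_zero_iff] at hρ
  funext j
  have hle : J₀ ≤ RingHom.ker (eval₂Hom ρ y) := by
    rw [Ideal.span_le]
    rintro _ ⟨b, rfl⟩
    exact hy b
  have h1 := hle (hDM j)
  rw [RingHom.mem_ker, map_mul, map_pow, coe_eval₂Hom, eval₂_C, eval₂_X] at h1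
  exact eq_zero_of_pow_eq_zero ((mul_eq_zero.1 h1).resolve_left (hρ j (Finset.mem_univ j)))

end Pool.Agent.V8H73.ZP
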