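import Pool.Agent.V8H73.ZP.Irr
import Pool.Agent.V8H73.ZP.Elim
import Pool.Agent.Results.MP_d83ecd_ag.LocalCriterion

/-!
# Good places over random number fields
-/

set_option autoImplicit false
set_option linter.unusedSectionVars false

open Polynomial

namespace Pool.Agent.V8H73.ZP

open Pool.Agent.Results.MP_d83ecd_ag.LocalCriterion

variable {k : ℕ} {Y : Type} [Fintype Y] [DecidableEq Y] {M : ℕ}

/-- the value at a complex number -/
noncomputable def evz (z : ℂ) : ℤ[X] →+* ℂ := eval₂RingHom (Int.castRingHom ℂ) z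

/-- the value at a residue -/
noncomputable def evr (p : ℕ) (r : ZMod p) : ℤ[X] →+* ZMod p := eval₂RingHom (Int.castRingHom (ZMod p)) r

/-- specialisation of the parameters: `t` and the elements `w_y` -/
noncomputable def sp {Z : Type} (v : Jz k Z → ℤ) (i : Y → Z) : MvPolynomial (Option Y) ℤ →+* ℤ[X] :=
  MvPolynomial.eval₂Hom C (fun o => o.elim X fun y => wf v (i y))

theorem evr_eq (p : ℕ) (r : ZMod p) (f : ℤ[X]) : evr p r f = (f.map (Int.castRingHom (ZMod p))).eval r := by
  rw [evr, coe_eval₂RingHom, eval_map]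

theorem pf_map {Z : Type} (v : Jz k Z → ℤ) (p : ℕ) : (pf v).map (Int.castRingHom (ZMod p)) = pf (rd p v) := by
  unfold pf
  rw [Polynomial.map_sum]
  refine Finset.sum_congr rfl fun i _ => ?_
  rw [Polynomial.map_mul, Polynomial.map_C, Polynomial.map_pow, Polynomial.map_X]
  rfl

theorem wf_map {Z : Type} (v : Jz k Z → ℤ) (p : ℕ) (z : Z) :
    (wf v z).map (Int.castRingHom (ZMod p)) = wf (rd p v) z := by
  unfold wf
  rw [Polynomial.map_sum]
  refine Finset.sum_congr rfl fun i _ => ?_
  rw [Polynomial.map_mul, Polynomial.map_C, Polynomial.map_pow, Polynomial.map_X]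
  rfl

theorem evr_sp {Z : Type} (v : Jz k Z → ℤ) (i : Y → Z) (p : ℕ) (r : ZMod p) (Q : MvPolynomial (Option Y) ℤ) :
    evr p r (sp v i Q) = MvPolynomial.eval (tp r fun y => (wf (rd p v) (i y)).eval r) (mp p Q) := by
  have h1 : (evr p r).comp (sp v i) =
      (MvPolynomial.eval (tp r fun y => (wf (rd p v) (i y)).eval r)).comp (MvPolynomial.map (Int.castRingHom (ZMod p))) := by
    refine MvPolynomial.ringHom_ext (fun n => ?_) fun o => ?_
    · simp [sp, evr]
    · rcases o with _ | y
      · simp [sp, evr, tp]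
      · rw [RingHom.comp_apply, RingHom.comp_apply, MvPolynomial.map_X, MvPolynomial.eval_X, sp,
          MvPolynomial.coe_eval₂Hom, MvPolynomial.eval₂_X]
        change evr p r (wf v (i y)) = (wf (rd p v) (i y)).eval r
        rw [evr_eq, wf_map]
  exact RingHom.congr_fun h1 Q

/-- relations at a complex root hold at a root modulo `p` -/
theorem ker_le {p : ℕ} [hp : Fact p.Prime] {f : ℤ[X]} (hf : Irreducible f.primPart) (hc : ((f.content : ℤ) : ZMod p) ≠ 0)
    (hd : 0 < f.natDegree) {z : ℂ} (hz : evz z f = 0) {r : ZMod p} (hr : evr p r f = 0) (h : ℤ[X]) (hh : evz z h = 0) :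
    evr p r h = 0 := by
  by_cases h0 : h = 0
  · rw [h0, map_zero]
  have hf0 : f ≠ 0 := by
    rintro rfl
    simp at hd
  have hc0 : f.content ≠ 0 := content_eq_zero_iff.not.2 hf0
  have hcf := f.eq_C_content_mul_primPart
  have hprim : f.primPart.IsPrimitive := f.isPrimitive_primPart
  have hz0 : evz z f.primPart = 0 := by
    rw [hcf, map_mul] at hz
    refine (mul_eq_zero.1 hz).resolve_left ?_
    rw [evz, coe_eval₂RingHom, eval₂_C]
    simpa using hc0
  have hr0 : evr p r f.primPart = 0 := by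
    rw [hcf, map_mul] at hr
    refine (mul_eq_zero.1 hr).resolve_left ?_
    rw [evr, coe_eval₂RingHom, eval₂_C]
    simpa using hc
  have hch0 : h.content ≠ 0 := content_eq_zero_iff.not.2 h0
  have hhz : evz z h.primPart = 0 := by
    rw [h.eq_C_content_mul_primPart, map_mul] at hh
    refine (mul_eq_zero.1 hh).resolve_left ?_
    rw [evz, coe_eval₂RingHom, eval₂_C]
    simpa using hch0
  have hev : ∀ q : ℤ[X], aeval z (q.map (Int.castRingHom ℚ)) = evz z q := by
    intro q
    rw [evz, coe_eval₂RingHom, aeval_def, eval₂_map]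
    congr 1
  have hirr : Irreducible (f.primPart.map (Int.castRingHom ℚ)) :=
    (Polynomial.IsPrimitive.Int.irreducible_iff_irreducible_map_cast hprim).1 hf
  have hdvd : f.primPart.map (Int.castRingHom ℚ) ∣ h.primPart.map (Int.castRingHom ℚ) := by
    by_contra hnd
    obtain ⟨a, b, hab⟩ := (hirr.coprime_iff_not_dvd).2 hnd
    have h1 := congrArg (aeval z) hab
    rw [map_add, map_mul, map_mul, hev, hev, hz0, hhz, mul_zero, mul_zero, add_zero, map_one] at h1
    exact zero_ne_one h1
  have hdvd2 : f.primPart ∣ h.primPart :=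
    (Polynomial.IsPrimitive.Int.dvd_iff_map_cast_dvd_map_cast _ _ hprim).2 hdvd
  have hdvd3 : f.primPart ∣ h := (hprim.dvd_primPart_iff_dvd h0).1 hdvd2
  obtain ⟨q, hq⟩ := hdvd3
  rw [hq, map_mul, hr0, zero_mul]

end Pool.Agent.V8H73.ZP
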