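import Pool.Agent.V8H73.ZP.Loc

/-!
# Almost all polynomials are irreducible
-/

set_option autoImplicit false
set_option linter.unusedSectionVars false

open Finset Polynomial

namespace Pool.Agent.V8H73.ZP

variable {k : ℕ} {Z : Type} [Fintype Z] [DecidableEq Z]

/-- elements of degree `d` over the prime field -/
theorem pow_deg {p : ℕ} [hp : Fact p.Prime] {K : Type} [Field K] [Algebra (ZMod p) K] [Finite K] (x : K) :
    x ^ p ^ (minpoly (ZMod p) x).natDegree = x := by
  have : FiniteDimensional (ZMod p) K := Module.Finite.of_finite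
  have hint : IsIntegral (ZMod p) x := IsIntegral.of_finite _ _
  let L := IntermediateField.adjoin (ZMod p) {x}
  have hfin : Module.finrank (ZMod p) L = (minpoly (ZMod p) x).natDegree := IntermediateField.adjoin.finrank hint
  have : Finite L := Finite.of_injective (Subtype.val : L → K) Subtype.val_injective
  let _ : Fintype L := Fintype.ofFinite L
  have hcard : Fintype.card L = p ^ (minpoly (ZMod p) x).natDegree := by
    rw [← hfin, Module.card_eq_pow_finrank (K := ZMod p) (V := L), ZMod.card]
  have h1 := FiniteField.pow_card (IntermediateField.AdjoinSimple.gen (ZMod p) x : L)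
  rw [hcard] at h1
  have h2 := congrArg (Subtype.val : L → K) h1
  simpa using h2

theorem geom {p : ℕ} (hp : 3 ≤ p) (k : ℕ) : 2 * ∑ d ∈ Finset.range (k + 1), p ^ d ≤ 3 * p ^ k := by
  induction k with
  | zero => simp
  | succ k ih =>
    rw [Finset.sum_range_succ, mul_add]
    have h1 : 3 * p ^ k ≤ p ^ (k + 1) := by
      rw [pow_succ, mul_comm]
      exact Nat.mul_le_mul_left _ hp
    omega

/-- elements of full degree -/
theorem full_card {p : ℕ} [hp : Fact p.Prime] (hp3 : 3 ≤ p) (k : ℕ) :
    p ^ (k + 1) ≤ 2 * {x : GaloisField p (k + 1) | (minpoly (ZMod p) x).natDegree = k + 1}.ncard := by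
  classical
  let _ : Fintype (GaloisField p (k + 1)) := Fintype.ofFinite _
  have hcard : Fintype.card (GaloisField p (k + 1)) = p ^ (k + 1) := by
    rw [← Nat.card_eq_fintype_card, GaloisField.card p (k + 1) (Nat.succ_ne_zero k)]
  have hfr : Module.finrank (ZMod p) (GaloisField p (k + 1)) = k + 1 := GaloisField.finrank p (Nat.succ_ne_zero k)
  have hsub : {x : GaloisField p (k + 1) | (minpoly (ZMod p) x).natDegree = k + 1}ᶜ ⊆
      ⋃ d ∈ Finset.range (k + 1), {x : GaloisField p (k + 1) | x ^ p ^ d = x ∧ 1 ≤ d} := by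
    intro x hx
    have hint : IsIntegral (ZMod p) x := IsIntegral.of_finite _ _
    have h2 : (minpoly (ZMod p) x).natDegree ≤ k + 1 := by
      have := minpoly.natDegree_le (A := ZMod p) x
      rwa [hfr] at this
    have h3 : (minpoly (ZMod p) x).natDegree ≠ k + 1 := hx
    rw [Set.mem_iUnion₂]
    exact ⟨_, Finset.mem_range.2 (by omega), pow_deg x, minpoly.natDegree_pos hint⟩
  have hdeg : ∀ d, {x : GaloisField p (k + 1) | x ^ p ^ d = x ∧ 1 ≤ d}.ncard ≤ p ^ d := by
    intro d
    by_cases hd : 1 ≤ d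
    · have h1 : {x : GaloisField p (k + 1) | x ^ p ^ d = x ∧ 1 ≤ d} ⊆
          ((X ^ p ^ d - X : (GaloisField p (k + 1))[X]).roots.toFinset : Set (GaloisField p (k + 1))) := by
        intro x hx
        have hne : (X ^ p ^ d - X : (GaloisField p (k + 1))[X]) ≠ 0 :=
          FiniteField.X_pow_card_pow_sub_X_ne_zero _ (by omega) hp.out.one_lt
        rw [Finset.mem_coe, Multiset.mem_toFinset, mem_roots hne, IsRoot.def]
        simp [hx.1]
      refine (Set.ncard_le_ncard h1).trans ?_
      rw [Set.ncard_coe_finset]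
      refine (Multiset.toFinset_card_le _).trans ((card_roots' _).trans ?_)
      rw [FiniteField.X_pow_card_pow_sub_X_natDegree_eq _ (by omega) hp.out.one_lt]
    · have h1 : {x : GaloisField p (k + 1) | x ^ p ^ d = x ∧ 1 ≤ d} = ∅ := by
        ext x
        simp [hd]
      rw [h1, Set.ncard_empty]
      exact Nat.zero_le _
  have h1 : ({x : GaloisField p (k + 1) | (minpoly (ZMod p) x).natDegree = k + 1}ᶜ).ncard ≤
      ∑ d ∈ Finset.range (k + 1), p ^ d := by
    refine (Set.ncard_le_ncard hsub).trans ?_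
    exact (Finset.set_ncard_biUnion_le _ _).trans (Finset.sum_le_sum fun d _ => hdeg d)
  have h2 := Set.ncard_add_ncard_compl {x : GaloisField p (k + 1) | (minpoly (ZMod p) x).natDegree = k + 1}
  rw [Nat.card_eq_fintype_card, hcard] at h2
  have h3 := geom hp3 k
  have h4 : 3 * p ^ k ≤ p ^ (k + 1) := by
    rw [pow_succ, mul_comm]
    exact Nat.mul_le_mul_left _ hp3
  omega

/-- the residues with an irreducible polynomial -/
def Ir (k : ℕ) (Z : Type) (p : ℕ) : Set (Jz k Z → ZMod p) :=
  {v | v (Sum.inl (Fin.last (k + 1))) ≠ 0 ∧ Irreducible (pf v)}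

theorem Ir_card : ∀ p : ℕ, p.Prime → 3 < p →
    (1 / (2 * ((k : ℝ) + 1))) * (p : ℝ) ^ Fintype.card (Jz k Z) ≤ p * (Ir k Z p).ncard := by
  classical
  intro p hpp hp3
  have hfact : Fact p.Prime := ⟨hpp⟩
  have : NeZero p := ⟨hpp.ne_zero⟩
  have hp0 : (0 : ℝ) < p := by exact_mod_cast hpp.pos
  set A : Set (GaloisField p (k + 1)) := {x | (minpoly (ZMod p) x).natDegree = k + 1} with hA
  have hAf : A.Finite := Set.toFinite _
  have hIf : (Ir k Z p).Finite := Set.toFinite _
  let Φ : GaloisField p (k + 1) × ((Z × Fin (k + 1)) → ZMod p) → Jz k Z → ZMod p := fun q =>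
    Sum.elim (fun i : Fin (k + 2) => (minpoly (ZMod p) q.1).coeff (i : ℕ)) q.2
  have hpf : ∀ q : GaloisField p (k + 1) × ((Z × Fin (k + 1)) → ZMod p), q.1 ∈ A → pf (Φ q) = minpoly (ZMod p) q.1 := by
    intro q hq
    have h1 : (minpoly (ZMod p) q.1).natDegree = k + 1 := hq
    conv_rhs => rw [(minpoly (ZMod p) q.1).as_sum_range_C_mul_X_pow, h1, Finset.sum_range]
    rfl
  have hcount : (hAf.toFinset ×ˢ (Finset.univ : Finset ((Z × Fin (k + 1)) → ZMod p))).card ≤
      (k + 1) * hIf.toFinset.card := by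
    refine Finset.card_le_mul_card_image_of_maps_to (f := Φ) ?_ _ ?_
    · intro q hq
      rw [Finset.mem_product, Set.Finite.mem_toFinset] at hq
      rw [Set.Finite.mem_toFinset]
      have hint : IsIntegral (ZMod p) q.1 := IsIntegral.of_finite _ _
      refine ⟨?_, ?_⟩
      · change (minpoly (ZMod p) q.1).coeff ((Fin.last (k + 1) : Fin (k + 2)) : ℕ) ≠ 0
        have h1 : (minpoly (ZMod p) q.1).natDegree = k + 1 := hq.1
        have h2 : (minpoly (ZMod p) q.1).coeff (minpoly (ZMod p) q.1).natDegree ≠ 0 := by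
          rw [coeff_natDegree, (minpoly.monic hint).leadingCoeff]
          exact one_ne_zero
        have h3 : ((Fin.last (k + 1) : Fin (k + 2)) : ℕ) = (minpoly (ZMod p) q.1).natDegree := by
          rw [Fin.val_last]
          exact h1.symm
        rw [h3]
        exact h2
      · rw [hpf q hq.1]
        exact minpoly.irreducible hint
    · intro v hv
      rw [Set.Finite.mem_toFinset] at hv
      have hne : (pf v).map (algebraMap (ZMod p) (GaloisField p (k + 1))) ≠ 0 := by
        rw [Polynomial.map_ne_zero_iff (algebraMap (ZMod p) (GaloisField p (k + 1))).injective]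
        exact hv.2.ne_zero
      have hdeg : (pf v).natDegree ≤ k + 1 := by
        unfold pf
        refine natDegree_sum_le_of_forall_le _ _ fun i _ => ?_
        exact (natDegree_C_mul_X_pow_le _ _).trans (by omega)
      refine (Finset.card_le_card_of_injOn (t := ((pf v).map (algebraMap (ZMod p) (GaloisField p (k + 1)))).roots.toFinset)
        (fun q => q.1) ?_ ?_).trans ?_
      · intro q hq
        rw [Finset.mem_coe, Finset.mem_filter, Finset.mem_product, Set.Finite.mem_toFinset] at hq
        rw [Finset.mem_coe, Multiset.mem_toFinset, mem_roots hne, IsRoot.def, ← hq.2, hpf q hq.1.1, eval_map_algebraMap]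
        exact minpoly.aeval _ _
      · intro q hq q' hq' heq
        rw [Finset.mem_coe, Finset.mem_filter] at hq hq'
        refine Prod.ext heq ?_
        funext z
        have h1 := congrFun (hq.2.trans hq'.2.symm) (Sum.inr z)
        exact h1
      · refine (Multiset.toFinset_card_le _).trans ((card_roots' _).trans ?_)
        rw [natDegree_map]
        exact hdeg
  have h1 : p ^ (k + 1) ≤ 2 * A.ncard := full_card (by omega) k
  rw [Finset.card_product, Finset.card_univ, Fintype.card_fun, ZMod.card, ← Set.ncard_eq_toFinset_card _ hAf,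
    ← Set.ncard_eq_toFinset_card _ hIf] at hcount
  have hJ : Fintype.card (Jz k Z) = (k + 1) + Fintype.card (Z × Fin (k + 1)) + 1 := by
    rw [Fintype.card_sum, Fintype.card_fin]
    omega
  rw [hJ]
  set m := Fintype.card (Z × Fin (k + 1)) with hm
  have h2 : (p : ℝ) ^ (k + 1) ≤ 2 * A.ncard := by exact_mod_cast h1
  have h3 : (A.ncard : ℝ) * (p : ℝ) ^ m ≤ ((k : ℝ) + 1) * (Ir k Z p).ncard := by exact_mod_cast hcount
  have h4 : (0 : ℝ) < (k : ℝ) + 1 := by positivity
  have h5 : (p : ℝ) ^ (k + 1) * (p : ℝ) ^ m ≤ 2 * (((k : ℝ) + 1) * (Ir k Z p).ncard) := by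
    have h6 := mul_le_mul_of_nonneg_right h2 (by positivity : (0 : ℝ) ≤ (p : ℝ) ^ m)
    linarith
  have h6 : (1 / (2 * ((k : ℝ) + 1))) * (p : ℝ) ^ ((k + 1) + m + 1) =
      p * (((p : ℝ) ^ (k + 1) * (p : ℝ) ^ m) / (2 * ((k : ℝ) + 1))) := by
    rw [pow_succ, pow_add]
    field_simp
  rw [h6]
  refine mul_le_mul_of_nonneg_left ?_ hp0.le
  rw [div_le_iff₀ (by positivity)]
  linarith

/-- an integral polynomial which is irreducible modulo a prime which does not divide the leading coefficient -/
theorem irr_of_mod {p : ℕ} [hp : Fact p.Prime] {f : ℤ[X]} (hlc : ((f.leadingCoeff : ℤ) : ZMod p) ≠ 0)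
    (hd : 0 < f.natDegree) (h : Irreducible (f.map (Int.castRingHom (ZMod p)))) :
    Irreducible (f.map (Int.castRingHom ℚ)) ∧ Irreducible f.primPart ∧ ((f.content : ℤ) : ZMod p) ≠ 0 := by
  have hf0 : f ≠ 0 := by
    rintro rfl
    simp at hd
  have hc0 : f.content ≠ 0 := content_eq_zero_iff.not.2 hf0
  have hcf := f.eq_C_content_mul_primPart
  have hlc2 : f.leadingCoeff = f.content * f.primPart.leadingCoeff := by
    conv_lhs => rw [hcf]
    rw [leadingCoeff_mul, leadingCoeff_C]
  have hcp : ((f.content : ℤ) : ZMod p) ≠ 0 := by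
    intro h0
    apply hlc
    rw [hlc2]
    push_cast
    rw [h0, zero_mul]
  have hlp : ((f.primPart.leadingCoeff : ℤ) : ZMod p) ≠ 0 := by
    intro h0
    apply hlc
    rw [hlc2]
    push_cast
    rw [h0, mul_zero]
  have hirr0 : Irreducible (f.primPart.map (Int.castRingHom (ZMod p))) := by
    have h1 : f.map (Int.castRingHom (ZMod p)) = C ((f.content : ℤ) : ZMod p) *
        f.primPart.map (Int.castRingHom (ZMod p)) := by
      conv_lhs => rw [hcf]
      rw [Polynomial.map_mul, Polynomial.map_C]
      rfl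
    rw [h1] at h
    exact (irreducible_isUnit_mul (isUnit_C.2 (isUnit_iff_ne_zero.2 hcp))).1 h
  have hprim : f.primPart.IsPrimitive := f.isPrimitive_primPart
  have hirr : Irreducible f.primPart := by
    refine ⟨?_, ?_⟩
    · intro hu
      have h1 := natDegree_eq_zero_of_isUnit hu
      rw [natDegree_primPart] at h1
      omega
    · intro a b hab
      have hlab : (((a.leadingCoeff : ℤ) : ZMod p) ≠ 0) ∧ (((b.leadingCoeff : ℤ) : ZMod p) ≠ 0) := by
        rw [hab, leadingCoeff_mul] at hlp
        push_cast at hlp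
        exact mul_ne_zero_iff.1 hlp
      have key : ∀ q : ℤ[X], q ∣ f.primPart → ((q.leadingCoeff : ℤ) : ZMod p) ≠ 0 →
          IsUnit (q.map (Int.castRingHom (ZMod p))) → IsUnit q := by
        intro q hq hql hqu
        have h1 : q.natDegree = 0 := by
          rw [← natDegree_map_of_leadingCoeff_ne_zero (Int.castRingHom (ZMod p)) hql]
          exact natDegree_eq_zero_of_isUnit hqu
        obtain ⟨c, hc⟩ := natDegree_eq_zero.1 h1
        rw [← hc] at hq ⊢
        exact isUnit_C.2 (hprim c hq)
      have h1 := hirr0.isUnit_or_isUnit (a := a.map (Int.castRingHom (ZMod p)))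
        (b := b.map (Int.castRingHom (ZMod p))) (by rw [← Polynomial.map_mul, ← hab])
      rcases h1 with h1 | h1
      · exact Or.inl (key a ⟨b, hab⟩ hlab.1 h1)
      · exact Or.inr (key b ⟨a, by rw [hab, mul_comm]⟩ hlab.2 h1)
  refine ⟨?_, hirr, hcp⟩
  have h1 : f.map (Int.castRingHom ℚ) = C ((f.content : ℤ) : ℚ) * f.primPart.map (Int.castRingHom ℚ) := by
    conv_lhs => rw [hcf]
    rw [Polynomial.map_mul, Polynomial.map_C]
    rfl
  rw [h1, irreducible_isUnit_mul (isUnit_C.2 (isUnit_iff_ne_zero.2 (by exact_mod_cast hc0)))]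
  exact (Polynomial.IsPrimitive.Int.irreducible_iff_irreducible_map_cast hprim).1 hirr

end Pool.Agent.V8H73.ZP
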