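import Pool.Agent.V8H73.ZP.Sieve
import Pool.Agent.Y226.ZR.Den

/-!
# Polynomials with a root over a finite field at which a point satisfies given conditions
-/

set_option autoImplicit false
set_option linter.unusedSectionVars false

open Finset Polynomial

namespace Pool.Agent.V8H73.ZP

/-- the indices: the coefficients of the polynomial `f` of degree `k + 1`, and the coefficients of the elements
`w_z = ∑_l b_(z,l) t ^ l` -/
abbrev Jz (k : ℕ) (Z : Type) : Type := Fin (k + 2) ⊕ (Z × Fin (k + 1))

variable {k : ℕ} {Z : Type} [Fintype Z] [DecidableEq Z]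

/-- the polynomial -/
noncomputable def pf {F : Type} [Ring F] (v : Jz k Z → F) : F[X] := ∑ i : Fin (k + 2), C (v (Sum.inl i)) * X ^ (i : ℕ)

/-- the elements, as polynomials -/
noncomputable def wf {F : Type} [Ring F] (v : Jz k Z → F) (z : Z) : F[X] :=
  ∑ l : Fin (k + 1), C (v (Sum.inr (z, l))) * X ^ (l : ℕ)

/-- a point -/
def tp {F : Type} (r : F) (w : Z → F) : Option Z → F := fun o => o.elim r w

/-- the reduction of a polynomial with integral coefficients -/
noncomputable abbrev mp {I : Type} (p : ℕ) (R : MvPolynomial I ℤ) : MvPolynomial I (ZMod p) :=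
  R.map (Int.castRingHom (ZMod p))

/-- the reduction modulo a large prime is not zero -/
theorem mp_ne {I : Type} {R : MvPolynomial I ℤ} (hR : R ≠ 0) : ∃ T : ℕ, ∀ p : ℕ, T < p → mp p R ≠ 0 := by
  obtain ⟨m, hm⟩ := MvPolynomial.ne_zero_iff.1 hR
  refine ⟨(MvPolynomial.coeff m R).natAbs, fun p hp h => ?_⟩
  have h1 := congrArg (MvPolynomial.coeff m) h
  rw [MvPolynomial.coeff_map, MvPolynomial.coeff_zero] at h1
  have h2 : (p : ℤ) ∣ MvPolynomial.coeff m R := (ZMod.intCast_zmod_eq_zero_iff_dvd _ _).1 h1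
  have h3 := Nat.le_of_dvd (Int.natAbs_pos.2 hm) (Int.natCast_dvd.1 h2)
  omega

open scoped Classical in
/-- the number of zeros modulo a prime -/
theorem zeros {ι : Type} [Fintype ι] (R : MvPolynomial ι ℤ) (p : ℕ) [hp : Fact p.Prime] (hR : mp p R ≠ 0) :
    ((Finset.univ.filter fun ρ : ι → ZMod p => MvPolynomial.eval ρ (mp p R) = 0).card : ℕ) * p ≤
      R.totalDegree * p ^ Fintype.card ι := by
  have h := Pool.Agent.Y226.ZR.sz_mod R p hR
  refine le_trans (Nat.mul_le_mul_right _ ?_) h
  refine Finset.card_le_card_of_injOn (fun ρ => ρ ∘ (Fintype.equivFin ι).symm) ?_ ?_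
  · intro ρ hρ
    simp only [Finset.coe_filter, Finset.mem_univ, true_and, Set.mem_ofPred_eq] at hρ ⊢
    rw [MvPolynomial.eval_rename]
    have e : (ρ ∘ (Fintype.equivFin ι).symm) ∘ (Fintype.equivFin ι) = ρ := by
      funext i
      simp
    rw [e]
    exact hρ
  · intro ρ _ ρ' _ h
    funext i
    have := congrFun h (Fintype.equivFin ι i)
    simpa using this

/-- the restriction of `E` to the hyperplane where the coordinate `z₀` is zero -/
noncomputable def rs (z₀ : Z) (E : MvPolynomial (Option Z) ℤ) : MvPolynomial (Option Z) ℤ :=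
  MvPolynomial.aeval (fun o => if o = some z₀ then (0 : MvPolynomial (Option Z) ℤ) else MvPolynomial.X o) E

theorem eval_rs {p : ℕ} (z₀ : Z) (E : MvPolynomial (Option Z) ℤ) (u : Option Z → ZMod p) :
    MvPolynomial.eval u (mp p (rs z₀ E)) = MvPolynomial.eval (Function.update u (some z₀) 0) (mp p E) := by
  have h1 : ((MvPolynomial.eval u).comp (MvPolynomial.map (Int.castRingHom (ZMod p)))).comp
      (MvPolynomial.aeval (fun o => if o = some z₀ then (0 : MvPolynomial (Option Z) ℤ) else
        MvPolynomial.X o)).toRingHom =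
      (MvPolynomial.eval (Function.update u (some z₀) 0)).comp (MvPolynomial.map (Int.castRingHom (ZMod p))) := by
    refine MvPolynomial.ringHom_ext (fun r => ?_) fun o => ?_
    · simp
    · by_cases h : o = some z₀
      · simp [h]
      · simp [h]
  exact RingHom.congr_fun h1 E

/-- the good residues: there is a root of the polynomial at which `w_(z₀)` is zero and `E` is not zero; the polynomial has
degree `k + 1` -/
def Om (z₀ : Z) (E : MvPolynomial (Option Z) ℤ) (p : ℕ) : Set (Jz k Z → ZMod p) :=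
  {v | v (Sum.inl (Fin.last (k + 1))) ≠ 0 ∧ ∃ r : ZMod p, (pf v).eval r = 0 ∧ (wf v z₀).eval r = 0 ∧
    MvPolynomial.eval (tp r fun z => (wf v z).eval r) (mp p E) ≠ 0}

/-- the vector with given values at `r` -/
def fx {p : ℕ} (z₀ : Z) (u : Option Z → ZMod p) (v : Jz k Z → ZMod p) : Jz k Z → ZMod p :=
  Sum.elim (Fin.cons (-∑ i : Fin (k + 1), v (Sum.inl i.succ) * u none ^ ((i : ℕ) + 1)) fun i => v (Sum.inl i.succ))
    fun q => (Fin.cons ((if q.1 = z₀ then 0 else u (some q.1)) -
      ∑ l : Fin k, v (Sum.inr (q.1, l.succ)) * u none ^ ((l : ℕ) + 1)) fun l => v (Sum.inr (q.1, l.succ)) :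
        Fin (k + 1) → ZMod p) q.2

theorem fx_root {p : ℕ} [Fact p.Prime] (z₀ : Z) (u : Option Z → ZMod p) (v : Jz k Z → ZMod p) :
    (pf (fx z₀ u v)).eval (u none) = 0 := by
  unfold pf
  rw [eval_finsetSum, Fin.sum_univ_succ]
  simp only [eval_mul, eval_C, eval_pow, eval_X, fx, Sum.elim_inl, Fin.cons_zero, Fin.cons_succ, Fin.val_zero,
    pow_zero, mul_one, Fin.val_succ]
  ring

theorem fx_val {p : ℕ} [Fact p.Prime] (z₀ : Z) (u : Option Z → ZMod p) (v : Jz k Z → ZMod p) (z : Z) :
    (wf (fx z₀ u v) z).eval (u none) = if z = z₀ then 0 else u (some z) := by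
  unfold wf
  rw [eval_finsetSum, Fin.sum_univ_succ]
  simp only [eval_mul, eval_C, eval_pow, eval_X, fx, Sum.elim_inr, Fin.cons_zero, Fin.cons_succ, Fin.val_zero,
    pow_zero, mul_one, Fin.val_succ]
  ring

open scoped Classical in
/-- at least half of the points are not zeros -/
theorem half {ι : Type} [Fintype ι] (R : MvPolynomial ι ℤ) (p : ℕ) [hp : Fact p.Prime] (hR : mp p R ≠ 0)
    (hd : 2 * R.totalDegree ≤ p) :
    (p : ℝ) ^ Fintype.card ι / 2 ≤ (Finset.univ.filter fun ρ : ι → ZMod p => MvPolynomial.eval ρ (mp p R) ≠ 0).card := by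
  have h1 := zeros R p hR
  have h2 : (Finset.univ.filter fun ρ : ι → ZMod p => MvPolynomial.eval ρ (mp p R) = 0).card +
      (Finset.univ.filter fun ρ : ι → ZMod p => ¬ MvPolynomial.eval ρ (mp p R) = 0).card = p ^ Fintype.card ι := by
    rw [Finset.card_filter_add_card_filter_not, Finset.card_univ, Fintype.card_fun, ZMod.card]
  have hp0 : (0 : ℝ) < p := by exact_mod_cast hp.out.pos
  set a : ℝ := ((Finset.univ.filter fun ρ : ι → ZMod p => MvPolynomial.eval ρ (mp p R) = 0).card : ℝ) with ha
  set b : ℝ := ((Finset.univ.filter fun ρ : ι → ZMod p => ¬ MvPolynomial.eval ρ (mp p R) = 0).card : ℝ) with hb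
  have h2' : a + b = (p : ℝ) ^ Fintype.card ι := by
    rw [ha, hb]
    exact_mod_cast h2
  have h1' : a * p ≤ R.totalDegree * (p : ℝ) ^ Fintype.card ι := by
    rw [ha]
    exact_mod_cast h1
  have hd' : 2 * (R.totalDegree : ℝ) ≤ p := by exact_mod_cast hd
  have h3 : a ≤ (p : ℝ) ^ Fintype.card ι / 2 := by
    by_contra hcon
    push Not at hcon
    have h4 : (p : ℝ) ^ Fintype.card ι / 2 * p < a * p := mul_lt_mul_of_pos_right hcon hp0
    have h5 : (0 : ℝ) < (p : ℝ) ^ Fintype.card ι := by positivity
    nlinarith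
  change (p : ℝ) ^ Fintype.card ι / 2 ≤ b
  linarith

theorem fx_mem {p : ℕ} [Fact p.Prime] {z₀ : Z} {E : MvPolynomial (Option Z) ℤ} {u : Option Z → ZMod p}
    {v : Jz k Z → ZMod p} (hu : MvPolynomial.eval u (mp p (rs z₀ E)) ≠ 0) (hv : v (Sum.inl (Fin.last (k + 1))) ≠ 0) :
    fx z₀ u v ∈ Om z₀ E p := by
  refine ⟨?_, u none, fx_root z₀ u v, ?_, ?_⟩
  · rw [← Fin.succ_last, fx, Sum.elim_inl, Fin.cons_succ, Fin.succ_last]
    exact hv
  · rw [fx_val, if_pos rfl]
  · rw [eval_rs] at hu
    have h1 : (tp (u none) fun z => (wf (fx z₀ u v) z).eval (u none)) = Function.update u (some z₀) 0 := by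
      funext o
      rcases o with _ | z
      · rw [Function.update_of_ne (by simp)]
        rfl
      · change (wf (fx z₀ u v) z).eval (u none) = _
        rw [fx_val]
        by_cases h : z = z₀
        · rw [if_pos h, h, Function.update_self]
        · rw [if_neg h, Function.update_of_ne (by simpa using h)]
    rw [h1]
    exact hu

open scoped Classical in
/-- the number of good residues -/
theorem Om_card (z₀ : Z) (E : MvPolynomial (Option Z) ℤ) (hE : rs z₀ E ≠ 0) : ∃ P₀ : ℕ, ∀ p : ℕ, p.Prime → P₀ < p →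
    (1 / (4 * ((k : ℝ) + 1))) * (p : ℝ) ^ Fintype.card (Jz k Z) ≤ p * (Om (k := k) z₀ E p).ncard := by
  obtain ⟨T, hT⟩ := mp_ne hE
  refine ⟨max T (2 * (rs z₀ E).totalDegree + 2), fun p hpp hp => ?_⟩
  have hfact : Fact p.Prime := ⟨hpp⟩
  have : NeZero p := ⟨hpp.ne_zero⟩
  rw [max_lt_iff] at hp
  have hp0 : (0 : ℝ) < p := by exact_mod_cast hpp.pos
  set A : Finset (Option Z → ZMod p) := Finset.univ.filter fun u => MvPolynomial.eval u (mp p (rs z₀ E)) ≠ 0 with hA
  set B : Finset (Jz k Z → ZMod p) := Finset.univ.filter fun v => v (Sum.inl (Fin.last (k + 1))) ≠ 0 with hB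
  have hAc : (p : ℝ) ^ (Fintype.card Z + 1) / 2 ≤ A.card := by
    have h1 := half (rs z₀ E) p (hT p hp.1) (by omega)
    rw [Fintype.card_option] at h1
    refine h1.trans (Nat.cast_le.2 (Finset.card_le_card fun u hu => ?_))
    rw [Finset.mem_filter] at hu
    rw [hA, Finset.mem_filter]
    exact ⟨Finset.mem_univ _, hu.2⟩
  have hBc : (p : ℝ) ^ Fintype.card (Jz k Z) / 2 ≤ B.card := by
    have h1 := half (MvPolynomial.X (Sum.inl (Fin.last (k + 1))) : MvPolynomial (Jz k Z) ℤ) p (by simp)
      (by rw [MvPolynomial.totalDegree_X]; omega)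
    refine h1.trans (Nat.cast_le.2 (Finset.card_le_card fun u hu => ?_))
    rw [Finset.mem_filter] at hu
    rw [hB, Finset.mem_filter]
    refine ⟨Finset.mem_univ _, ?_⟩
    have h2 := hu.2
    rwa [mp, MvPolynomial.map_X, MvPolynomial.eval_X] at h2
  have hOmf : (Om (k := k) z₀ E p).Finite := Set.toFinite _
  have hcount : (A ×ˢ B).card ≤ ((k + 1) * (p * (p * p ^ Fintype.card Z))) * hOmf.toFinset.card := by
    refine Finset.card_le_mul_card_image_of_maps_to (f := fun q : (Option Z → ZMod p) × (Jz k Z → ZMod p) =>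
      fx z₀ q.1 q.2) ?_ _ ?_
    · rintro ⟨u, v⟩ hq
      rw [Finset.mem_product, hA, hB, Finset.mem_filter, Finset.mem_filter] at hq
      rw [Set.Finite.mem_toFinset]
      exact fx_mem hq.1.2 hq.2.2
    · intro v' hv'
      rw [Set.Finite.mem_toFinset] at hv'
      have hne : pf v' ≠ 0 := by
        intro h0
        have h1 : (pf v').coeff (k + 1) = v' (Sum.inl (Fin.last (k + 1))) := by
          unfold pf
          rw [finsetSum_coeff]
          simp only [coeff_C_mul, coeff_X_pow]
          rw [Finset.sum_eq_single (Fin.last (k + 1))]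
          · simp
          · intro i _ hi
            rw [if_neg, mul_zero]
            intro h
            apply hi
            exact Fin.ext (by simpa using h.symm)
          · intro h
            exact absurd (Finset.mem_univ _) h
        rw [h0, coeff_zero] at h1
        exact hv'.1 h1.symm
      have hdeg : (pf v').natDegree ≤ k + 1 := by
        unfold pf
        refine natDegree_sum_le_of_forall_le _ _ fun i _ => ?_
        exact (natDegree_C_mul_X_pow_le _ _).trans (by omega)
      have hroots : (pf v').roots.toFinset.card ≤ k + 1 :=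
        (Multiset.toFinset_card_le _).trans ((card_roots' _).trans hdeg)
      have hcard : ((pf v').roots.toFinset ×ˢ ((Finset.univ : Finset (ZMod p × (ZMod p × (Z → ZMod p)))))).card ≤
          (k + 1) * (p * (p * p ^ Fintype.card Z)) := by
        rw [Finset.card_product, Finset.card_univ, Fintype.card_prod, Fintype.card_prod, Fintype.card_fun, ZMod.card]
        exact Nat.mul_le_mul_right _ hroots
      refine le_trans (Finset.card_le_card_of_injOn (fun q : (Option Z → ZMod p) × (Jz k Z → ZMod p) =>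
        (q.1 none, (q.1 (some z₀), (q.2 (Sum.inl 0), fun z => q.2 (Sum.inr (z, 0)))))) ?_ ?_) hcard
      · rintro ⟨u, v⟩ hq
        rw [Finset.mem_coe, Finset.mem_filter] at hq
        rw [Finset.mem_coe, Finset.mem_product]
        refine ⟨?_, Finset.mem_univ _⟩
        rw [Multiset.mem_toFinset, mem_roots hne, IsRoot.def, ← hq.2]
        exact fx_root z₀ u v
      · rintro ⟨u, v⟩ hq ⟨u', v''⟩ hq' heq
        rw [Finset.mem_coe, Finset.mem_filter] at hq hq'
        obtain ⟨e1, e2, e3, e4⟩ : u none = u' none ∧ u (some z₀) = u' (some z₀) ∧ v (Sum.inl 0) = v'' (Sum.inl 0) ∧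
            (fun z => v (Sum.inr (z, 0))) = fun z => v'' (Sum.inr (z, 0)) := by
          simp only [Prod.mk.injEq] at heq
          exact heq
        have e5 : fx z₀ u v = fx z₀ u' v'' := hq.2.trans hq'.2.symm
        have hv : v = v'' := by
          funext j
          rcases j with i | ⟨z, l⟩
          · refine Fin.cases ?_ (fun i => ?_) i
            · exact e3
            · have h1 := congrFun e5 (Sum.inl i.succ)
              simpa [fx] using h1
          · refine Fin.cases ?_ (fun l => ?_) l
            · exact congrFun e4 z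
            · have h1 := congrFun e5 (Sum.inr (z, l.succ))
              simpa [fx] using h1
        have hu : u = u' := by
          funext o
          rcases o with _ | z
          · exact e1
          · by_cases h : z = z₀
            · rw [h]; exact e2
            · have h1 := fx_val z₀ u v z
              have h2 := fx_val z₀ u' v'' z
              rw [if_neg h] at h1 h2
              rw [← h1, ← h2, e5, e1]
        rw [hv, hu]
  have h3 : (A.card : ℝ) * B.card ≤ (((k : ℝ) + 1) * (p * (p * p ^ Fintype.card Z))) * (Om (k := k) z₀ E p).ncard := by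
    rw [Set.ncard_eq_toFinset_card _ hOmf]
    rw [Finset.card_product] at hcount
    exact_mod_cast hcount
  set J := Fintype.card (Jz k Z) with hJ
  set z := Fintype.card Z with hz
  set O : ℝ := ((Om (k := k) z₀ E p).ncard : ℝ) with hO
  have h4 : (p : ℝ) ^ (z + 1) / 2 * ((p : ℝ) ^ J / 2) ≤ (((k : ℝ) + 1) * (p * (p * p ^ z))) * O := by
    refine le_trans (mul_le_mul hAc hBc (by positivity) (Nat.cast_nonneg _)) h3
  have h5 : (0 : ℝ) < (p : ℝ) ^ (z + 1) := by positivity
  have h6 : (p : ℝ) ^ (z + 1) * ((1 / (4 * ((k : ℝ) + 1))) * (p : ℝ) ^ J) ≤ (p : ℝ) ^ (z + 1) * (p * O) := by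
    have h7 : (0 : ℝ) < (k : ℝ) + 1 := by positivity
    have h8 : (p : ℝ) ^ (z + 1) * ((1 / (4 * ((k : ℝ) + 1))) * (p : ℝ) ^ J) =
        ((p : ℝ) ^ (z + 1) / 2 * ((p : ℝ) ^ J / 2)) / ((k : ℝ) + 1) := by
      field_simp
      ring
    rw [h8, div_le_iff₀ h7]
    refine h4.trans (le_of_eq ?_)
    ring
  exact le_of_mul_le_mul_left h6 h5

end Pool.Agent.V8H73.ZP
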