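import Pool.Agent.V8H73.ZP.App

/-!
# Good places over random number fields: the data and the places
-/

set_option autoImplicit false
set_option linter.unusedSectionVars false

open Polynomial

namespace Pool.Agent.V8H73.ZP

open Pool.Agent.Results.MP_d83ecd_ag.LocalCriterion

variable {k : ℕ} {Y : Type} {N n m T M : ℕ} {κ : Type}

/-- the ring of the parameters -/
abbrev L0 (Y : Type) : Type := MvPolynomial (Option Y) ℤ

/-- general position is inherited by most specialisations -/
theorem gp_elim (G : κ → MvPolynomial (Fin (N + 1)) (L0 Y)) (A B : Fin n → MvPolynomial (Fin (N + 1)) (L0 Y))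
    {F : Type} [Field F] [IsAlgClosed F] (φ : L0 Y →+* F) (hφ : Function.Injective φ)
    (h : InGeneralPosition φ m G A B) : ∃ D : L0 Y, D ≠ 0 ∧ ∀ (F' : Type) [Field F'] (ρ : L0 Y →+* F'), ρ D ≠ 0 →
      InGeneralPosition ρ m G A B := by
  classical
  have h1 : ∀ I : Finset (Fin n), ∃ D : L0 Y, D ≠ 0 ∧ (I.card = m + 1 → ∀ (F' : Type) [Field F'] (ρ : L0 Y →+* F'),
      ρ D ≠ 0 → ∀ y : Fin (N + 1) → F', OnB ρ G y →
        ∃ i ∈ I, MvPolynomial.eval₂ ρ y (A i) * MvPolynomial.eval₂ ρ y (B i) ≠ 0) := by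
    intro I
    by_cases hI : I.card = m + 1
    · obtain ⟨D, hD, hD'⟩ := elim (Sum.elim G (fun i : I => A i * B i)) φ hφ (by
        intro y hy
        by_contra hy0
        obtain ⟨i, hi, h2⟩ := h I hI y ⟨hy0, fun b => hy (Sum.inl b)⟩
        apply h2
        have h3 := hy (Sum.inr ⟨i, hi⟩)
        rw [Sum.elim_inr, MvPolynomial.eval₂_mul] at h3
        exact h3)
      refine ⟨D, hD, fun _ F' _ ρ hρ y hy => ?_⟩
      by_contra hcon
      push Not at hcon
      refine hy.1 (hD' F' ρ hρ y ?_)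
      rintro (b | i)
      · exact hy.2 b
      · rw [Sum.elim_inr, MvPolynomial.eval₂_mul]
        exact hcon i i.2
    · exact ⟨1, one_ne_zero, fun h => absurd h hI⟩
  choose D hD hD' using h1
  refine ⟨∏ I : Finset (Fin n), D I, Finset.prod_ne_zero_iff.2 fun I _ => hD I, fun F' _ ρ hρ I hI y hy => ?_⟩
  rw [map_prod, Finset.prod_ne_zero_iff] at hρ
  exact hD' I hI F' ρ (hρ I (Finset.mem_univ _)) y hy

/-- the coefficients -/
theorem co_elim (R : Fin n → Polynomial (Polynomial (L0 Y))) : ∃ D : L0 Y, D ≠ 0 ∧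
    ∀ (F' : Type) [Field F'] (ρ : L0 Y →+* F'), ρ D ≠ 0 →
      ∀ i u w, ((R i).coeff u).coeff w ≠ 0 → ρ (((R i).coeff u).coeff w) ≠ 0 := by
  classical
  refine ⟨∏ i, ∏ u ∈ (R i).support, ∏ w ∈ ((R i).coeff u).support, ((R i).coeff u).coeff w, ?_, ?_⟩
  · exact Finset.prod_ne_zero_iff.2 fun i _ => Finset.prod_ne_zero_iff.2 fun u _ =>
      Finset.prod_ne_zero_iff.2 fun w hw => mem_support_iff.1 hw
  · intro F' _ ρ hρ i u w h
    rw [map_prod, Finset.prod_ne_zero_iff] at hρ
    have h1 := hρ i (Finset.mem_univ _)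
    rw [map_prod, Finset.prod_ne_zero_iff] at h1
    have h2 := h1 u (mem_support_iff.2 fun h0 => h (by rw [h0, coeff_zero]))
    rw [map_prod, Finset.prod_ne_zero_iff] at h2
    exact h2 w (mem_support_iff.2 h)

section transfer

variable {Λ Λ' : Type} [CommRing Λ] [CommRing Λ']

theorem scaled_map (θ : Λ →+* Λ') (f' : Λ' →+* ℂ) (G : κ → MvPolynomial (Fin (N + 1)) Λ)
    (A B : Fin n → MvPolynomial (Fin (N + 1)) Λ) (R : Fin n → Polynomial (Polynomial Λ)) (c : Fin n → Λ) :
    scaledImage (f'.comp θ) G A B R c =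
      scaledImage f' (fun b => (G b).map θ) (fun i => (A i).map θ) (fun i => (B i).map θ)
        (fun i => (R i).map (Polynomial.mapRingHom θ)) (fun i => θ (c i)) := by
  have hv : ∀ (Q : Polynomial (Polynomial Λ)) (s x : ℂ), valueAt (f'.comp θ) Q s x =
      valueAt f' (Q.map (Polynomial.mapRingHom θ)) s x := by
    intro Q s x
    unfold valueAt
    rw [Polynomial.eval₂_map]
    congr 1
    refine Polynomial.ringHom_ext (fun a => ?_) ?_
    · simp
    · simp
  have he : ∀ (y : Fin (N + 1) → ℂ) (Q : MvPolynomial (Fin (N + 1)) Λ),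
      MvPolynomial.eval₂ (f'.comp θ) y Q = MvPolynomial.eval₂ f' y (Q.map θ) := by
    intro y Q
    rw [MvPolynomial.eval₂_map]
  unfold scaledImage OnB
  simp only [hv, he, RingHom.comp_apply]

theorem noAt_map (θ : Λ →+* Λ') (f' : Λ' →+* ℂ) {K : Subfield ℂ} {X : Set (Fin n → ℂ)}
    (h : NoAtypical f' K m X) : NoAtypical (f'.comp θ) K m X := by
  intro r Z
  refine h r ⟨Z.cls, Z.surj, Z.mat, Z.det_pos, Z.const, fun i => ?_⟩
  rcases Z.allowed i with h1 | ⟨q, hq, hq0⟩
  · exact Or.inl h1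
  · refine Or.inr ⟨q.map θ, hq.map θ, ?_⟩
    rw [Polynomial.eval₂_map]
    exact hq0

end transfer

section place

variable [Fintype Y] [DecidableEq Y]

/-- the polynomial of the good residues at the place with number `l` -/
noncomputable def El (D : L0 Y) (l : Fin M) : MvPolynomial (Option (Fin M ⊕ Y)) ℤ :=
  MvPolynomial.rename (Option.map Sum.inr) D *
    ∏ l' ∈ Finset.univ.filter (fun l' => l' ≠ l), MvPolynomial.X (some (Sum.inl l'))

theorem rs_El {D : L0 Y} (hD : D ≠ 0) (l : Fin M) : rs (Sum.inl l) (El D l) ≠ 0 := by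
  unfold El rs
  rw [map_mul, map_prod, MvPolynomial.aeval_rename]
  refine mul_ne_zero ?_ ?_
  · have h1 : ((fun o : Option (Fin M ⊕ Y) => if o = some (Sum.inl l) then (0 : MvPolynomial (Option (Fin M ⊕ Y)) ℤ) else
        MvPolynomial.X o) ∘ Option.map Sum.inr) = fun o : Option Y => MvPolynomial.X (Option.map Sum.inr o) := by
      funext o
      rcases o with _ | y
      · simp
      · simp
    rw [h1]
    have h2 : MvPolynomial.aeval (fun o : Option Y => (MvPolynomial.X (Option.map Sum.inr o) :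
        MvPolynomial (Option (Fin M ⊕ Y)) ℤ)) D = MvPolynomial.rename (Option.map Sum.inr) D := by
      have h4 : (MvPolynomial.aeval (fun o : Option Y => (MvPolynomial.X (Option.map Sum.inr o) :
          MvPolynomial (Option (Fin M ⊕ Y)) ℤ))) = MvPolynomial.rename (R := ℤ) (Option.map (Sum.inr : Y → Fin M ⊕ Y)) := by
        refine MvPolynomial.algHom_ext fun o => ?_
        rw [MvPolynomial.aeval_X, MvPolynomial.rename_X]
      rw [h4]
    rw [h2]
    intro h3
    exact hD (MvPolynomial.rename_injective _ (Option.map_injective Sum.inr_injective)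
      (h3.trans (map_zero _).symm))
  · rw [Finset.prod_ne_zero_iff]
    intro l' hl'
    rw [Finset.mem_filter] at hl'
    rw [MvPolynomial.aeval_X, if_neg (by simpa using hl'.2)]
    exact MvPolynomial.X_ne_zero _

theorem eval_El {p : ℕ} [Fact p.Prime] {D : L0 Y} {l : Fin M} {r : ZMod p} {w : Fin M ⊕ Y → ZMod p}
    (h : MvPolynomial.eval (tp r w) (mp p (El D l)) ≠ 0) :
    MvPolynomial.eval (tp r fun y => w (Sum.inr y)) (mp p D) ≠ 0 ∧ ∀ l', l' ≠ l → w (Sum.inl l') ≠ 0 := by
  unfold El at h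
  rw [mp, map_mul, map_mul, map_prod, map_prod] at h
  obtain ⟨h1, h2⟩ := mul_ne_zero_iff.1 h
  constructor
  · rw [MvPolynomial.map_rename, MvPolynomial.eval_rename] at h1
    have e : (tp r w ∘ Option.map Sum.inr : Option Y → ZMod p) = tp r fun y => w (Sum.inr y) := by
      funext o
      rcases o with _ | y
      · rfl
      · rfl
    rwa [e] at h1
  · intro l' hl'
    rw [Finset.prod_ne_zero_iff] at h2
    have h3 := h2 l' (Finset.mem_filter.2 ⟨Finset.mem_univ _, hl'⟩)
    rw [MvPolynomial.map_X, MvPolynomial.eval_X] at h3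
    exact h3

/-- the scaling factors -/
noncomputable def cf (v : Jz k (Fin M ⊕ Y) → ℤ) (e : Fin M → Fin n → ℕ) (i : Fin n) : ℤ[X] :=
  ∏ l, wf v (Sum.inl l) ^ e l i

theorem evr_wf (p : ℕ) (r : ZMod p) {Z : Type} (v : Jz k Z → ℤ) (z : Z) :
    evr p r (wf v z) = (wf (rd p v) z).eval r := by
  rw [evr_eq, wf_map]

/-- **The place.** -/
noncomputable def plc {p : ℕ} [hp : Fact p.Prime] {z : ℂ} {v : Jz k (Fin M ⊕ Y) → ℤ}
    (hf : Irreducible (pf v).primPart) (hc : (((pf v).content : ℤ) : ZMod p) ≠ 0) (hd : 0 < (pf v).natDegree)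
    (hz : evz z (pf v) = 0) {G : κ → MvPolynomial (Fin (N + 1)) (L0 Y)} {A B : Fin n → MvPolynomial (Fin (N + 1)) (L0 Y)}
    {R : Fin n → Polynomial (Polynomial (L0 Y))} {D : L0 Y}
    (hD1 : ∀ (F' : Type) [Field F'] (ρ : L0 Y →+* F'), ρ D ≠ 0 → InGeneralPosition ρ m G A B)
    (hD2 : ∀ (F' : Type) [Field F'] (ρ : L0 Y →+* F'), ρ D ≠ 0 →
      ∀ i u w, ((R i).coeff u).coeff w ≠ 0 → ρ (((R i).coeff u).coeff w) ≠ 0)
    (e : Fin M → Fin n → ℕ) {l : Fin M} {r : ZMod p} (hr : (pf (rd p v)).eval r = 0)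
    (hr0 : (wf (rd p v) (Sum.inl l)).eval r = 0)
    (hE : MvPolynomial.eval (tp r fun z => (wf (rd p v) z).eval r) (mp p (El D l)) ≠ 0) :
    GoodPlace (Λ := ℤ[X] ⧸ RingHom.ker (evz z)) m
      (fun b => (G b).map ((Ideal.Quotient.mk (RingHom.ker (evz z))).comp (sp v Sum.inr)))
      (fun i => (A i).map ((Ideal.Quotient.mk (RingHom.ker (evz z))).comp (sp v Sum.inr)))
      (fun i => (B i).map ((Ideal.Quotient.mk (RingHom.ker (evz z))).comp (sp v Sum.inr)))
      (fun i => (R i).map (Polynomial.mapRingHom ((Ideal.Quotient.mk (RingHom.ker (evz z))).comp (sp v Sum.inr))))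
      (fun i => Ideal.Quotient.mk (RingHom.ker (evz z)) (cf v e i)) (e l) :=
  let red : ℤ[X] ⧸ RingHom.ker (evz z) →+* AlgebraicClosure (ZMod p) :=
    Ideal.Quotient.lift (RingHom.ker (evz z)) ((algebraMap (ZMod p) (AlgebraicClosure (ZMod p))).comp (evr p r))
      (fun h hh => by
        rw [RingHom.comp_apply, ker_le hf hc hd hz (r := r) (by rw [evr_eq, pf_map]; exact hr) h hh, map_zero])
  have hred : ∀ h : ℤ[X], red (Ideal.Quotient.mk _ h) = algebraMap (ZMod p) (AlgebraicClosure (ZMod p)) (evr p r h) :=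
    fun h => by rw [Ideal.Quotient.lift_mk, RingHom.comp_apply]
  have hE' := eval_El hE
  have hDn : (red.comp ((Ideal.Quotient.mk (RingHom.ker (evz z))).comp (sp v Sum.inr))) D ≠ 0 := by
    rw [RingHom.comp_apply, RingHom.comp_apply, hred, evr_sp]
    exact (_root_.map_ne_zero _).2 hE'.1
  { F := AlgebraicClosure (ZMod p)
    red := red
    general := by
      intro I hI y hy
      obtain ⟨i, hi, h1⟩ := hD1 _ _ hDn I hI y ⟨hy.1, fun b => by
        have h2 := hy.2 b
        rw [MvPolynomial.eval₂_map] at h2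
        exact h2⟩
      refine ⟨i, hi, ?_⟩
      rw [MvPolynomial.eval₂_map, MvPolynomial.eval₂_map]
      exact h1
    coeff_ne := by
      intro i u w h
      have e1 : (((R i).map (Polynomial.mapRingHom ((Ideal.Quotient.mk (RingHom.ker (evz z))).comp
          (sp v Sum.inr)))).coeff u).coeff w =
          (Ideal.Quotient.mk (RingHom.ker (evz z))).comp (sp v Sum.inr) (((R i).coeff u).coeff w) := by
        rw [Polynomial.coeff_map, Polynomial.coe_mapRingHom, Polynomial.coeff_map]
      rw [e1] at h ⊢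
      exact hD2 _ _ hDn i u w fun h0 => h (by rw [h0, map_zero])
    ϖ := Ideal.Quotient.mk _ (wf v (Sum.inl l))
    red_ϖ := by
      rw [hred, evr_wf, hr0, map_zero]
    order := by
      intro i
      refine ⟨1, Ideal.Quotient.mk _ (∏ l' ∈ Finset.univ.erase l, wf v (Sum.inl l') ^ e l' i), ?_, ?_, ?_⟩
      · rw [map_one]
        exact one_ne_zero
      · rw [hred]
        refine (_root_.map_ne_zero _).2 ?_
        rw [map_prod, Finset.prod_ne_zero_iff]
        intro l' hl'
        rw [map_pow, evr_wf]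
        exact pow_ne_zero _ (hE'.2 l' (Finset.ne_of_mem_erase hl'))
      · rw [one_mul, ← map_pow, ← map_mul, cf, ← Finset.mul_prod_erase _ _ (Finset.mem_univ l), mul_comm] }

end place

end Pool.Agent.V8H73.ZP
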