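import Mathlib

/-!
# A sieve for integral vectors in a box
-/

set_option autoImplicit false

open Finset

namespace Pool.Agent.V8H73.ZP

variable {J : Type} [Fintype J] [DecidableEq J]

/-- the reduction of an integral vector -/
def rd (p : ℕ) (v : J → ℤ) : J → ZMod p := fun j => (v j : ZMod p)

/-- the box -/
noncomputable def bx (J : Type) [Fintype J] [DecidableEq J] (T : ℕ) : Finset (J → ℤ) :=
  Fintype.piFinset fun _ => Finset.Icc (-(T : ℤ)) (T : ℤ)

theorem bx_card (T : ℕ) : ((bx J T).card : ℝ) = (2 * (T : ℝ) + 1) ^ Fintype.card J := by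
  rw [bx, Fintype.card_piFinset, Finset.prod_const, Finset.card_univ, Int.card_Icc]
  push_cast
  congr 1
  have h1 : (((T : ℤ) + 1 - -(T : ℤ)).toNat : ℤ) = 2 * (T : ℤ) + 1 := by
    rw [Int.toNat_of_nonneg (by omega)]
    ring
  exact_mod_cast h1

/-- integers of an interval in one residue class -/
theorem card_class (P : Finset ℕ) (hP : ∀ p ∈ P, p.Prime) (T : ℕ) (w : ∀ p : ℕ, ZMod p) :
    ((Finset.Icc (-(T : ℤ)) (T : ℤ)).filter fun x => ∀ p ∈ P, ((x : ℤ) : ZMod p) = w p).card ≤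
      2 * T / (∏ p ∈ P, p) + 1 := by
  set q : ℕ := ∏ p ∈ P, p with hq
  have hq0 : 0 < q := Finset.prod_pos fun p hp => (hP p hp).pos
  have hq' : (0 : ℤ) < q := by exact_mod_cast hq0
  rw [← Finset.card_range (2 * T / q + 1)]
  refine Finset.card_le_card_of_injOn (fun x => ((x + T) / q).toNat) ?_ ?_
  · intro x hx
    rw [Finset.mem_coe, Finset.mem_filter, Finset.mem_Icc] at hx
    rw [Finset.mem_coe, Finset.mem_range]
    have h1 : (x + T) / q ≤ ((2 * T / q : ℕ) : ℤ) := by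
      rw [Int.natCast_div]
      push_cast
      exact Int.ediv_le_ediv hq' (by omega)
    have h2 : 0 ≤ (x + T) / q := Int.ediv_nonneg (by omega) hq'.le
    simp only
    omega
  · intro x hx y hy hxy
    rw [Finset.mem_coe, Finset.mem_filter, Finset.mem_Icc] at hx hy
    have h1 : (q : ℤ) ∣ x - y := by
      rw [hq]
      push_cast
      refine Finset.prod_dvd_of_coprime (fun p hp p' hp' hne => ?_) fun p hp => ?_
      · exact (Nat.isCoprime_iff_coprime.2 ((Nat.coprime_primes (hP p hp) (hP p' hp')).2 hne))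
      · rw [← ZMod.intCast_zmod_eq_zero_iff_dvd]
        push_cast
        rw [hx.2 p hp, hy.2 p hp, sub_self]
    have hx0 : 0 ≤ (x + T) / q := Int.ediv_nonneg (by omega) hq'.le
    have hy0 : 0 ≤ (y + T) / q := Int.ediv_nonneg (by omega) hq'.le
    have h2 : (x + T) / q = (y + T) / q := by
      have h3 : (((x + T) / q).toNat : ℤ) = (((y + T) / q).toNat : ℤ) := by exact_mod_cast hxy
      rwa [Int.toNat_of_nonneg hx0, Int.toNat_of_nonneg hy0] at h3
    obtain ⟨k, hk⟩ := h1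
    have h3 : x + T = y + T + q * k := by linarith
    rw [h3, Int.add_mul_ediv_left _ _ hq'.ne'] at h2
    have h4 : k = 0 := by linarith
    rw [h4] at hk
    linarith

open scoped Classical in
/-- the sieve for finitely many primes -/
theorem sieve_finite (P : Finset ℕ) (hP : ∀ p ∈ P, p.Prime) (Ω : ∀ p : ℕ, Set (J → ZMod p)) (T : ℕ) :
    (((bx J T).filter fun v => ∀ p ∈ P, rd p v ∉ Ω p).card : ℝ) ≤
      (∏ p ∈ P, ((Ω p)ᶜ.ncard : ℝ)) * (2 * T / (∏ p ∈ P, (p : ℝ)) + 1) ^ Fintype.card J := by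
  set q : ℕ := ∏ p ∈ P, p with hq
  have hne : ∀ p : {p // p ∈ P}, NeZero (p : ℕ) := fun p => ⟨(hP p.1 p.2).ne_zero⟩
  have hft : ∀ p : {p // p ∈ P}, Fintype (J → ZMod (p : ℕ)) := fun p => inferInstance
  let W : Finset (∀ p : {p // p ∈ P}, J → ZMod (p : ℕ)) := Fintype.piFinset fun p => (Ω (p : ℕ))ᶜ.toFinset
  have hW : W.card = ∏ p ∈ P, (Ω p)ᶜ.ncard := by
    rw [Fintype.card_piFinset, ← Finset.prod_coe_sort P (fun p => (Ω p)ᶜ.ncard)]
    refine Finset.prod_congr rfl fun p _ => ?_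
    rw [Set.ncard_eq_toFinset_card']
  have h1 : ((bx J T).filter fun v => ∀ p ∈ P, rd p v ∉ Ω p).card ≤ (2 * T / q + 1) ^ Fintype.card J * W.card := by
    refine Finset.card_le_mul_card_image_of_maps_to (f := fun v (p : {p // p ∈ P}) => rd (p : ℕ) v) ?_ _ ?_
    · intro v hv
      rw [Finset.mem_filter] at hv
      rw [Fintype.mem_piFinset]
      intro p
      rw [Set.mem_toFinset]
      exact hv.2 p p.2
    · intro w _
      let w' : J → ∀ p : ℕ, ZMod p := fun j p => if h : p ∈ P then w ⟨p, h⟩ j else 0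
      refine (Finset.card_le_card (t := Fintype.piFinset fun j => (Finset.Icc (-(T : ℤ)) (T : ℤ)).filter fun x =>
        ∀ p ∈ P, ((x : ℤ) : ZMod p) = w' j p) ?_).trans ?_
      · intro v hv
        rw [Finset.mem_filter, Finset.mem_filter] at hv
        rw [Fintype.mem_piFinset]
        intro j
        rw [Finset.mem_filter]
        refine ⟨Fintype.mem_piFinset.1 hv.1.1 j, fun p hp => ?_⟩
        have h2 := congrFun (congrFun hv.2 ⟨p, hp⟩) j
        simp only [w', dif_pos hp]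
        exact h2
      · rw [Fintype.card_piFinset]
        refine (Finset.prod_le_pow_card _ _ (2 * T / q + 1) fun j _ => card_class P hP T (w' j)).trans ?_
        rw [Finset.card_univ]
  have hq0 : 0 < q := Finset.prod_pos fun p hp => (hP p hp).pos
  have h3 : ((2 * T / q + 1 : ℕ) : ℝ) ≤ 2 * T / (∏ p ∈ P, (p : ℝ)) + 1 := by
    push_cast
    have h4 : ((2 * T / q : ℕ) : ℝ) ≤ ((2 * T : ℕ) : ℝ) / (q : ℝ) := Nat.cast_div_le
    have h5 : (q : ℝ) = ∏ p ∈ P, (p : ℝ) := by rw [hq]; push_cast; rfl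
    rw [h5] at h4
    push_cast at h4
    linarith
  calc (((bx J T).filter fun v => ∀ p ∈ P, rd p v ∉ Ω p).card : ℝ)
      ≤ (((2 * T / q + 1) ^ Fintype.card J * W.card : ℕ) : ℝ) := by exact_mod_cast h1
    _ = ((2 * T / q + 1 : ℕ) : ℝ) ^ Fintype.card J * (∏ p ∈ P, ((Ω p)ᶜ.ncard : ℝ)) := by
        rw [hW]
        push_cast
        rfl
    _ ≤ (2 * T / (∏ p ∈ P, (p : ℝ)) + 1) ^ Fintype.card J * (∏ p ∈ P, ((Ω p)ᶜ.ncard : ℝ)) := by
        refine mul_le_mul_of_nonneg_right (pow_le_pow_left₀ (Nat.cast_nonneg _) h3 _) ?_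
        exact Finset.prod_nonneg fun _ _ => Nat.cast_nonneg _
    _ = _ := mul_comm _ _

open scoped Classical in
/-- **The sieve.** The sets `Ω p` of residues have density at least `c / p`; almost all integral vectors are in one of
them. -/
theorem sieve {c : ℝ} (hc : 0 < c) (P₀ : ℕ) (Ω : ∀ p : ℕ, Set (J → ZMod p))
    (hΩ : ∀ p : ℕ, p.Prime → P₀ < p → c * (p : ℝ) ^ Fintype.card J ≤ p * (Ω p).ncard) {ε : ℝ} (hε : 0 < ε) :
    ∃ T₀ : ℕ, ∀ T, T₀ ≤ T →
      (((bx J T).filter fun v => ∀ p : ℕ, p.Prime → P₀ < p → rd p v ∉ Ω p).card : ℝ) ≤ ε * (bx J T).card := by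
  set f : ℕ → ℝ := Set.indicator {p | p.Prime} (fun n : ℕ => (1 : ℝ) / n) with hf
  have hf0 : ∀ n, 0 ≤ f n := fun n => Set.indicator_nonneg (fun _ _ => by positivity) n
  have hlim : Filter.Tendsto (fun n => ∑ i ∈ Finset.range n, f i) Filter.atTop Filter.atTop :=
    (not_summable_iff_tendsto_nat_atTop_of_nonneg hf0).1 not_summable_one_div_on_primes
  set N := Fintype.card J with hN
  obtain ⟨M, hM⟩ := (Filter.tendsto_atTop.1 hlim
    ((∑ i ∈ Finset.range (P₀ + 1), f i) + -Real.log (ε / 2 ^ N) / c)).exists_forall_of_atTop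
  set P : Finset ℕ := (Finset.Ioc P₀ (M + P₀)).filter Nat.Prime with hPdef
  have hP : ∀ p ∈ P, p.Prime := fun p hp => (Finset.mem_filter.1 hp).2
  have hP0 : ∀ p ∈ P, P₀ < p := fun p hp => (Finset.mem_Ioc.1 (Finset.mem_filter.1 hp).1).1
  have hsum : -Real.log (ε / 2 ^ N) / c ≤ ∑ p ∈ P, (1 : ℝ) / p := by
    have h1 := hM (M + P₀ + 1) (by omega)
    have h2 : ∑ i ∈ Finset.range (M + P₀ + 1), f i =
        (∑ i ∈ Finset.range (P₀ + 1), f i) + ∑ i ∈ Finset.Ico (P₀ + 1) (M + P₀ + 1), f i :=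
      (Finset.sum_range_add_sum_Ico f (by omega)).symm
    have h3 : ∑ i ∈ Finset.Ico (P₀ + 1) (M + P₀ + 1), f i = ∑ p ∈ P, (1 : ℝ) / p := by
      rw [hPdef, Finset.sum_filter]
      have e : Finset.Ico (P₀ + 1) (M + P₀ + 1) = Finset.Ioc P₀ (M + P₀) := by
        ext x; simp only [Finset.mem_Ico, Finset.mem_Ioc]; omega
      rw [e]
      refine Finset.sum_congr rfl fun i _ => ?_
      rw [hf, Set.indicator_apply]
      rfl
    rw [h2, h3] at h1
    linarith
  have hpr : ∀ p ∈ P, ((Ω p)ᶜ.ncard : ℝ) ≤ (p : ℝ) ^ N * Real.exp (-(c / p)) := by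
    intro p hp
    have : NeZero p := ⟨(hP p hp).ne_zero⟩
    have hp0 : (0 : ℝ) < p := by exact_mod_cast (hP p hp).pos
    have h1 := hΩ p (hP p hp) (hP0 p hp)
    have h2 : ((Ω p).ncard : ℝ) + ((Ω p)ᶜ.ncard : ℝ) = (p : ℝ) ^ N := by
      have h3 := Set.ncard_add_ncard_compl (Ω p)
      rw [Nat.card_eq_fintype_card, Fintype.card_fun, ZMod.card] at h3
      exact_mod_cast h3
    have h4 : ((Ω p)ᶜ.ncard : ℝ) ≤ (p : ℝ) ^ N * (1 - c / p) := by
      have h5 : c / p * (p : ℝ) ^ N ≤ (Ω p).ncard := by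
        rw [div_mul_eq_mul_div, div_le_iff₀ hp0]
        linarith
      nlinarith
    exact h4.trans (mul_le_mul_of_nonneg_left (Real.one_sub_le_exp_neg _) (by positivity))
  set q : ℝ := ∏ p ∈ P, (p : ℝ) with hq
  have hq0 : 0 < q := Finset.prod_pos fun p hp => by exact_mod_cast (hP p hp).pos
  have hprod : (∏ p ∈ P, ((Ω p)ᶜ.ncard : ℝ)) ≤ q ^ N * (ε / 2 ^ N) := by
    calc (∏ p ∈ P, ((Ω p)ᶜ.ncard : ℝ)) ≤ ∏ p ∈ P, ((p : ℝ) ^ N * Real.exp (-(c / p))) :=
          Finset.prod_le_prod (fun _ _ => Nat.cast_nonneg _) hpr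
      _ = q ^ N * Real.exp (-(c * ∑ p ∈ P, (1 : ℝ) / p)) := by
          rw [Finset.prod_mul_distrib, Finset.prod_pow, ← Real.exp_sum, Finset.sum_neg_distrib, Finset.mul_sum]
          congr 3
          refine Finset.sum_congr rfl fun p _ => ?_
          ring
      _ ≤ q ^ N * Real.exp (Real.log (ε / 2 ^ N)) := by
          refine mul_le_mul_of_nonneg_left (Real.exp_le_exp.2 ?_) (by positivity)
          rw [div_le_iff₀ hc] at hsum
          linarith
      _ = q ^ N * (ε / 2 ^ N) := by rw [Real.exp_log (by positivity)]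
  refine ⟨⌈q⌉₊, fun T hT => ?_⟩
  have hTq : q ≤ T := Nat.ceil_le.1 hT
  have h1 : (((bx J T).filter fun v => ∀ p : ℕ, p.Prime → P₀ < p → rd p v ∉ Ω p).card : ℝ) ≤
      (((bx J T).filter fun v => ∀ p ∈ P, rd p v ∉ Ω p).card : ℝ) := by
    refine Nat.cast_le.2 (Finset.card_le_card fun v hv => ?_)
    rw [Finset.mem_filter] at hv ⊢
    exact ⟨hv.1, fun p hp => hv.2 p (hP p hp) (hP0 p hp)⟩
  refine h1.trans ((sieve_finite P hP Ω T).trans ?_)
  rw [← hq, bx_card, ← hN]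
  calc (∏ p ∈ P, ((Ω p)ᶜ.ncard : ℝ)) * (2 * T / q + 1) ^ N ≤ q ^ N * (ε / 2 ^ N) * (2 * T / q + 1) ^ N :=
        mul_le_mul_of_nonneg_right hprod (by positivity)
    _ = ε * ((2 * T + q) / 2) ^ N := by
        have h2 : 2 * (T : ℝ) / q + 1 = (2 * T + q) / q := by field_simp
        rw [h2, div_pow, div_pow]
        field_simp
    _ ≤ ε * (2 * (T : ℝ) + 1) ^ N := by
        refine mul_le_mul_of_nonneg_left (pow_le_pow_left₀ (by positivity) ?_ _) hε.le
        have : (0 : ℝ) ≤ T := Nat.cast_nonneg _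
        linarith

end Pool.Agent.V8H73.ZP
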